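import Pool.Agent.Helper28.WK.StC
import Pool.Agent.Helper14.TT.Defs

/-!
# Project T3K: quadratic twists in all even weights. Definitions

`p` is a prime, `D` is odd and prime to `p`, `χ(b) = jacobiSym b D`, `s = χ(-1)`, `c = χ(p)`. The weight is `k = 2a+2`. The twisted path is `eXb D m` (project TT). `u = act p 0 0 1`.
The central component of a symbol seen by the twisted path has `W = -(s c^n)`, `* = s` at level `p^n`. For `D = 1` everything is as in project WK.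
-/

set_option autoImplicit false

open Pool.Agent.Helper14.CV Pool.Agent.Helper28.WK

namespace Pool.Agent.Helper76.TG

open Pool.Agent.Helper14.TT (eXb)

/-- Killed by all words applied to the twisted path. -/
def Wzt {R : Type} [AddCommGroup R] (p D : ℕ) (m : ℤ) (G : ℤ → ℤ → R) : Prop :=
  ∀ ls : List ℕ, Ok p ls → eXb D m (Tw m ls G) = 0

/-- THEOREM A for the twisted path: a symbol modulo `p^M` of level `p^m` with the signs of the twisted path, killed by all words applied to it, is up to the factor `4` of the form `c ψ∘u - ψ`, `ψ` of level `p^(m-1)`. -/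
def TAt (p D : ℕ) : Prop := ∀ (m M : ℕ) (g : ℤ → ℤ → ZMod (p ^ M)), 3 ≤ m → SymP p 0 m g →
  EqC (act 0 (-1) ((p : ℤ) ^ m) 0 g) (-((jacobiSym (-1) D * jacobiSym p D ^ m) • g)) →
  EqC (act (-1) 0 0 1 g) (jacobiSym (-1) D • g) → Wzt p D 1 g →
  ∃ ψ : ℤ → ℤ → ZMod (p ^ M), SymP p 0 (m - 1) ψ ∧
    EqC (jacobiSym p D • act p 0 0 1 ψ - ψ) ((4 : ℤ) • g)

/-- The twisted period of weight `2a+2`: the sum of `χ(b)` times the value of the path from `∞` to `m b / D` at `(D X - m b)^a`. -/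
noncomputable def eW {R : Type} [AddCommGroup R] (a D : ℕ) (m : ℤ) (Φ : ℤ → ℤ → ℕ → R) : R :=
  ∑ b ∈ Finset.range D, jacobiSym (b : ℤ) D •
    (pr Φ ((Polynomial.C (D : ℤ) * Polynomial.X - Polynomial.C (m * b)) ^ a) (m * b) D -
      pr Φ ((Polynomial.C (D : ℤ) * Polynomial.X - Polynomial.C (m * b)) ^ a) 1 0)

/-- As `WSymP` (project WK), with the signs of the twisted path and killed by all Hecke words applied to it. -/
structure WSymT {R : Type} [AddCommGroup R] (p a ν D : ℕ) (Φ : ℤ → ℤ → ℕ → R) : Prop where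
  hom : ∀ i : ℕ, i ≤ 2 * a → Homog (cp Φ i)
  eqv : ∀ α β γ δ : ℤ, α * δ - β * γ = 1 → (p : ℤ) ∣ β → (p : ℤ) ^ (ν + 1) ∣ γ →
    ∀ i : ℕ, i ≤ 2 * a →
    EqC (act α β γ δ (cp Φ i)) (pr Φ ((Polynomial.C α * Polynomial.X + Polynomial.C β) ^ i *
      (Polynomial.C γ * Polynomial.X + Polynomial.C δ) ^ (2 * a - i)))
  tt : ∀ j : ℕ, j ≤ 2 * a → EqC (fun x y => ∑ i ∈ Finset.range p,
    pr Φ ((Polynomial.X - Polynomial.C (i : ℤ)) ^ j) (x + i * y) y) 0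
  ss : ∀ j : ℕ, j ≤ 2 * a → EqC (fun x y => ∑ i ∈ Finset.range p,
    pr Φ (Polynomial.X ^ j * (1 - Polynomial.C ((p : ℤ) ^ ν * i) * Polynomial.X) ^ (2 * a - j))
      x ((p : ℤ) ^ ν * i * x + y)) 0
  fr : EqC (act 0 (-1) ((p : ℤ) ^ ν) 0 (cp Φ a))
    (-((jacobiSym (-1) D * jacobiSym p D ^ ν) • cp Φ a))
  st : EqC (act (-1) 0 0 1 (cp Φ a)) (jacobiSym (-1) D • cp Φ a)
  hk : ∀ M : ℕ, 1 ≤ M → ∀ ls : List ℕ, Ok p ls →
    eW a D ((p : ℤ) ^ M) (WTw a ((p : ℤ) ^ M) ls Φ) = 0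

/-- As `WSN` (project LV: level `p^n` in the coordinate `z`), twisted. -/
structure WSNT {R : Type} [AddCommGroup R] (p a n D : ℕ) (Φ : ℤ → ℤ → ℕ → R) : Prop where
  hom : ∀ i : ℕ, i ≤ 2 * a → Homog (cp Φ i)
  eqv : ∀ α β γ δ : ℤ, α * δ - β * γ = 1 → (p : ℤ) ^ n ∣ γ → ∀ i : ℕ, i ≤ 2 * a →
    EqC (act α β γ δ (cp Φ i)) (pr Φ ((Polynomial.C α * Polynomial.X + Polynomial.C β) ^ i *
      (Polynomial.C γ * Polynomial.X + Polynomial.C δ) ^ (2 * a - i)))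
  fr : EqC (act 0 (-1) ((p : ℤ) ^ n) 0 (cp Φ a))
    (-((jacobiSym (-1) D * jacobiSym p D ^ n) • cp Φ a))
  st : EqC (act (-1) 0 0 1 (cp Φ a)) (jacobiSym (-1) D • cp Φ a)
  hk : ∀ M : ℕ, 1 ≤ M → ∀ ls : List ℕ, Ok p ls →
    eW a D ((p : ℤ) ^ M) (WTw a ((p : ℤ) ^ M) ls Φ) = 0

end Pool.Agent.Helper76.TG
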