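import Pool.Agent.Helper76.TG.Defs
import Pool.Agent.Helper28.LV.StL

/-!
# Project T3K: the growth part, statements

The statements of projects WK (`Pool/Agent/Helper28/WK/StB.lean`, `StC.lean`) and LV (`Pool/Agent/Helper28/LV/StL.lean`) with the signs `s = χ(-1)`, `c = χ(p)` of the twisted path. The normal form of Theorem A is now
`c ψ∘u - ψ ≈ 4 G`. `UIp`, `Gr`, `StCC`, `StG5`, `MC`, `MS`, `RgT`, `RgU`, `EG`, `AV` are used unchanged. The models are the modules with the same names without `T`.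
-/

set_option autoImplicit false

open Pool.Agent.Helper14.CV Pool.Agent.Helper28.WK Pool.Agent.Helper28.LV

namespace Pool.Agent.Helper76.TG

open Pool.Agent.Helper14.TT (eXb)

/-! ### The limit -/

/-- The content of LAT. -/
def LaT : Prop := ∀ (p : ℕ) (_ : Fact p.Prime) (D : ℕ), Nat.Coprime p D → TAt p D →
  ∀ (ν M : ℕ) (g : ℤ → ℤ → ZMod (p ^ M)), 2 ≤ M → SymP p M (M + ν) g →
  EqC (act 0 (-1) ((p : ℤ) ^ ν) 0 g) (-((jacobiSym (-1) D * jacobiSym p D ^ ν) • g)) →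
  EqC (act (-1) 0 0 1 g) (jacobiSym (-1) D • g) → Wzt p D ((p : ℤ) ^ M) g →
  ∃ ψ : ℤ → ℤ → ZMod (p ^ M), SymP p M (M + ν - 1) ψ ∧
    EqC (jacobiSym p D • act p 0 0 1 ψ - ψ) ((4 : ℤ) • g)

/-- LAT. Theorem A at the level `(M, M+ν)`, twisted, any `ν ≥ 0`. Model: `Pool/Agent/Helper10/WK/M_La.lean` (proof in the docstring of `StLa`, `Pool/Agent/Helper28/WK/StB.lean`), `m = 2M + ν ≥ 4`. New: (1) the sign at level `p^m` is that at level `p^ν`: `c^(2M+ν) = c^ν`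
(`c² = 1`, `jacobiSym.sq_one`, `p` prime to `D`). (2) Words: with `g' = act (p^M) 0 0 1 g`, `Tl l 1 (act (p^M) 0 0 1 H) = act (p^M) 0 0 1 (Tl l (p^M) H)` exactly, so `Tw 1 ls g' = act (p^M) 0 0 1 (Tw (p^M) ls g)`, and for every homogeneous `K`:
`eXb D 1 (act (p^M) 0 0 1 K) = eXb D (p^M) K` (`K (p^M b) D`, and `K (p^M) 0 = K 1 0` by homogeneity). (3) `jacobiSym p D • act p 0 0 1 ψ - ψ` in the place of `act p 0 0 1 ψ - ψ`. -/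
def StLaT : Prop := LaT

/-- The content of LBT. -/
def LbT : Prop := ∀ (p : ℕ) (_ : Fact p.Prime) (D : ℕ), Nat.Coprime p D → TAt p D →
  ∀ (ν : ℕ) (G : ℤ → ℤ → ℤ_[p]), Homog G → (∀ M : ℕ, 2 ≤ M → SymP p M (M + ν) (redP M G)) →
  EqC (act 0 (-1) ((p : ℤ) ^ ν) 0 G) (-((jacobiSym (-1) D * jacobiSym p D ^ ν) • G)) →
  EqC (act (-1) 0 0 1 G) (jacobiSym (-1) D • G) →
  (∀ M : ℕ, 2 ≤ M → Wzt p D ((p : ℤ) ^ M) (redP M G)) →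
  ∃ ψ : ℤ → ℤ → ℤ_[p], Homog ψ ∧ (∀ M : ℕ, 2 ≤ M → SymP p M (M + ν - 1) (redP M ψ)) ∧
    EqC (jacobiSym p D • act p 0 0 1 ψ - ψ) ((4 : ℤ) • G)

/-- LBT. The limit, twisted. Model: `Pool/Agent/Helper16/WK/M_Lb2.lean` (proof in the docstring of `StLb2`). New: (1) the reductions of the hypotheses contain the signs. (2) Uniqueness: `χ = (ψ_{M+1} mod p^M) - ψ_M` satisfies `c u χ ≈ χ`, so `u² χ ≈ χ` (`c² = 1`), that is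
`act (p²) 0 0 1 χ ≈ χ`, and `SymP p r s χ` implies `SymP (p²) r s χ` (`(p²)^r ∣ b` implies `p^r ∣ b`), so `χ ≈ 0` by UIp for `p²`. -/
def StLbT : Prop := LaT → UIp → LbT

/-- POLT. Model: `Pool/Agent/Helper63/WK/M_Pol.lean` (proof in the docstring of `StPol`). Now `c ψ (p x, y) = ψ (x, y) + 4 G (x, y) + k`, so (1) becomes `c (Nb a (p h) ψ) (p x, y) = (Nb a h ψ) (x, y) + 4 (Nb a h G) (x, y)` and
`D_h(v, w) = c^m D_{p^m h}(u^m v, u^m w)`; (iii) `(Nc a c' ψ)(v) = c (c (Nc a c' ψ)∘...)`: `c (Nc a c' ψ) (u v') = (Nc a (p c') ψ) (v') + 4 (Nc a (p c') G) (v')`. Any `ν ≥ 0`. -/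
def StPolT : Prop := ∀ (p : ℕ) (_ : Fact p.Prime) (c : ℤ) (a ν : ℕ) (G ψ : ℤ → ℤ → ℤ_[p]),
  (c = 1 ∨ c = -1) →
  Homog G → Homog ψ → (∀ M : ℕ, 2 ≤ M → SymP p M (M + ν - 1) (redP M ψ)) →
  EqC (c • act p 0 0 1 ψ - ψ) ((4 : ℤ) • G) → (∀ h : ℤ, (p : ℤ) ∣ h → EqC (Nb a h G) 0) →
  (∀ c' : ℤ, (p : ℤ) ^ (ν + 1) ∣ c' → EqC (Nc a c' G) 0) →
  (∀ h : ℤ, EqC (Nb a h (ψ + (4 : ℤ) • G)) 0) ∧ (∀ c' : ℤ, (p : ℤ) ^ ν ∣ c' → EqC (Nc a c' ψ) 0)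

/-! ### The structure `WSymT` -/

/-- W1T. Copy of `Pool/Agent/Helper36/LV/M_M2A.lean` (only `eqv` is used). -/
def StW1T : Prop := ∀ (p : ℕ) (_ : Fact p.Prime) (a ν D : ℕ) (Φ : ℤ → ℤ → ℕ → ℤ_[p]),
  WSymT p a ν D Φ → ∀ M : ℕ, 1 ≤ M → SymP p M (M + ν) (redP M (cp Φ a))

/-- W2T. Copy of `Pool/Agent/Helper28/WK/M_W2.lean` (only `eqv` is used). -/
def StW2T : Prop := ∀ (p : ℕ) (_ : Fact p.Prime) (a ν D : ℕ) (Φ : ℤ → ℤ → ℕ → ℤ_[p]),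
  WSymT p a ν D Φ → (∀ h : ℤ, (p : ℤ) ∣ h → EqC (Nb a h (cp Φ a)) 0) ∧
    (∀ c : ℤ, (p : ℤ) ^ (ν + 1) ∣ c → EqC (Nc a c (cp Φ a)) 0)

/-- W3T. Copy of `Pool/Agent/Helper1/WK/M_W3.lean` (only `tt`, `ss` are used). -/
def StW3T : Prop := ∀ (p : ℕ) (_ : Fact p.Prime) (a ν D : ℕ) (Φ : ℤ → ℤ → ℕ → ℤ_[p]),
  WSymT p a ν D Φ → ∀ v1 v2 w1 w2 : ℤ, (v1 ≠ 0 ∨ v2 ≠ 0) → (w1 ≠ 0 ∨ w2 ≠ 0) →
    QPf a (fun b => cp Φ a (w1 + b * w2) w2 - cp Φ a (v1 + b * v2) v2) ∧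
    QPf a (fun c => cp Φ a w1 ((p : ℤ) ^ ν * c * w1 + w2) -
      cp Φ a v1 ((p : ℤ) ^ ν * c * v1 + v2))

/-- W4T. Hecke words of the twisted path. Model: `Pool/Agent/Helper97/WK/M_W4.lean`. Proof. As there, modulo `p^M` the `i`-component (all `i ≤ a` are needed only for `i = a`) of `WTw a (p^M) ls Φ` is `(∏ l)^a` times `Tw (p^M) ls (redP M (cp Φ a))` for `i = a`. For every `Ψ` modulo `p^M`:
`pr Ψ ((D X - p^M b)^a) ≡ D^a Ψ_a` (all lower coefficients are divisible by `p^M`), at all vectors. So modulo `p^M` `0 = eW a D (p^M) (WTw a (p^M) ls Φ) = D^a (∏ l)^a eXb D (p^M) (Tw (p^M) ls (redP M (cp Φ a)))`, and `D`, `l` are units modulo `p^M`. -/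
def StW4T : Prop := ∀ (p : ℕ) (_ : Fact p.Prime) (a D : ℕ) (Φ : ℤ → ℤ → ℕ → ℤ_[p]), Nat.Coprime p D →
  (∀ M : ℕ, 1 ≤ M → ∀ ls : List ℕ, Ok p ls → eW a D ((p : ℤ) ^ M) (WTw a ((p : ℤ) ^ M) ls Φ) = 0) →
  ∀ M : ℕ, 1 ≤ M → Wzt p D ((p : ℤ) ^ M) (redP M (cp Φ a))

/-- MAPT. As `StMap`, model `Pool/Agent/Helper47/WK/M_Map.lean`. `hk`: in (a), (b) `eW` and `WTw` commute with additive maps; in (c) `WTw a m ls Φ'`, `WTw a m ls Φ` differ by constants (away from the origin, components `≤ 2a`), and `eW` only contains differences of values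
at the nonzero vectors `(m b, D)`, `(1, 0)` on the components `≤ a`. `fr`, `st`: additive maps commute with integer multiples. -/
def StMapT : Prop := ∀ (p a ν D : ℕ), p ≠ 0 → D ≠ 0 → ∀ (R S : Type) (_ : AddCommGroup R) (_ : AddCommGroup S)
  (lam : R →+ S) (Φ : ℤ → ℤ → ℕ → R),
  (WSymT p a ν D Φ → WSymT p a ν D (fun x y i => lam (Φ x y i))) ∧
  (Function.Injective lam → WSymT p a ν D (fun x y i => lam (Φ x y i)) → WSymT p a ν D Φ) ∧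
  ∀ Φ' : ℤ → ℤ → ℕ → R, (∀ i : ℕ, i ≤ 2 * a → EqC (cp Φ' i) (cp Φ i)) → WSymT p a ν D Φ →
    WSymT p a ν D Φ'

/-- DENT. As `StDen`, model `Pool/Agent/Helper66/WK/M_Den.lean`. -/
def StDenT : Prop := StFar → StMapT → ∀ (p a ν D : ℕ) (Φ : ℤ → ℤ → ℕ → ℚ), p.Prime → D ≠ 0 →
  WSymT p a ν D Φ → ∃ (N : ℤ) (Ψ : ℤ → ℤ → ℕ → ℤ), N ≠ 0 ∧ WSymT p a ν D Ψ ∧
    ∀ i : ℕ, i ≤ 2 * a → EqC (fun x y => ((Ψ x y i : ℤ) : ℚ)) (N • cp Φ i)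

/-- ALLT. As `StAll`, model `Pool/Agent/Helper32/WK/M_All.lean` (only `eqv` is used). -/
def StAllT : Prop := ∀ (p a ν D : ℕ) (Φ : ℤ → ℤ → ℕ → ℂ), p.Prime → WSymT p a ν D Φ →
  EqC (cp Φ a) 0 → ∀ i : ℕ, i ≤ 2 * a → EqC (cp Φ i) 0

/-- As `IData` (the Eichler potentials of a newform of level `p^(ν+2)`), with root number `w`. -/
structure IDataT (p a ν : ℕ) (w : ℤ) (I : ℤ → ℤ → ℕ → ℂ) : Prop where
  hom : ∀ i : ℕ, i ≤ 2 * a → Homog (cp I i)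
  inf : ∀ i : ℕ, i ≤ 2 * a → I 1 0 i = 0
  eqv : ∀ α β γ δ : ℤ, α * δ - β * γ = 1 → (p : ℤ) ^ (ν + 2) ∣ γ → ∀ i : ℕ, i ≤ 2 * a →
    EqC (act α β γ δ (cp I i)) (pr I ((Polynomial.C α * Polynomial.X + Polynomial.C β) ^ i *
      (Polynomial.C γ * Polynomial.X + Polynomial.C δ) ^ (2 * a - i)))
  tt : ∀ j : ℕ, j ≤ 2 * a → EqC (fun x y => ∑ i ∈ Finset.range p,
    pr I ((Polynomial.C (p : ℤ) * Polynomial.X - Polynomial.C (i : ℤ)) ^ j)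
      (p * x + i * y) (p * y)) 0
  ss : ∀ j : ℕ, j ≤ 2 * a → EqC (fun x y => ∑ i ∈ Finset.range p,
    pr I (Polynomial.X ^ j *
      (1 - Polynomial.C ((p : ℤ) ^ (ν + 1) * i) * Polynomial.X) ^ (2 * a - j))
      x ((p : ℤ) ^ (ν + 1) * i * x + y)) 0
  fr : EqC (act 0 (-1) ((p : ℤ) ^ (ν + 2)) 0 (cp I a)) (-(w • cp I a))
  hk : ∃ lam : ℕ → ℂ, ∀ (l : ℕ) (m : ℤ), l.Prime → l ≠ p → IsCoprime m (l : ℤ) →
    ∀ i : ℕ, i ≤ 2 * a → ∀ x y : ℤ, (x ≠ 0 ∨ y ≠ 0) →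
    (∑ j ∈ Finset.range l, pr I ((Polynomial.C (l : ℤ) * Polynomial.X -
      Polynomial.C (m * j)) ^ i) (x + m * j * y) (l * y)) +
      ((l : ℤ) ^ (2 * a - i)) • I (l * x) y i = lam l * I x y i

/-- The central twisted period of the potentials: `∑_{b<D} χ(b) I((DX - b)^a)` at the cusp `b/D`. -/
noncomputable def eI (a D : ℕ) (I : ℤ → ℤ → ℕ → ℂ) : ℂ :=
  ∑ b ∈ Finset.range D, (jacobiSym (b : ℤ) D : ℂ) *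
    pr I ((Polynomial.C (D : ℤ) * Polynomial.X - Polynomial.C (b : ℤ)) ^ a) b D

/-- The symmetrised potentials in the coordinate `p z`, parity `s`. -/
noncomputable def PhiOfT (p a : ℕ) (s : ℤ) (I : ℤ → ℤ → ℕ → ℂ) : ℤ → ℤ → ℕ → ℂ := fun x y i =>
  ((p : ℤ) ^ i) • I x (p * y) i + (s * ((-1 : ℤ) ^ (a + i) * (p : ℤ) ^ i)) • I (-x) (p * y) i

/-- TRT. Transport. Model: `Pool/Agent/Helper12/WK/M_Tr.lean` (proof in the docstring of `StTr`, `Pool/Agent/Helper28/WK/StC.lean`), `s = χ(-1)`. For `P` of degree `≤ 2a`: `pr Φ P (x, y) = pr I (P(pX)) (x, py) + s (-1)^a pr I (P(-pX)) (-x, py)` (0). New: `fr` with `-w` (`c^(ν+2) = c^ν`).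
`st`: `s² = 1`. `hk`: as in the model `(WT a l (p^M) Φ) x y i = lam l * Φ x y i` for `i ≤ 2a` and nonzero `(x, y)`, so a word multiplies `Φ` there by a constant, and it is enough to have `eW a D (p^M) Φ = 0`. `pr Φ (..) 1 0 = 0` (`inf`). By (0) and homogeneity (`p D` and `p^M b`, `M ≥ 1`: divide the vector by `p`)
`pr Φ ((DX - p^M b)^a) (p^M b, D) = p^a pr I ((DX - p^(M-1) b)^a) (p^(M-1) b, D) + s p^a pr I ((DX + p^(M-1) b)^a) (-p^(M-1) b, D)` (`(-1)^a (-1)^a = 1`). The function `v ↦ pr I ((DX - v)^a) (v, D)` of the integer `v` has period `D`: `eqv` for `(1 1; 0 1)` gives `pr I P (x + y, y) = pr I (P(X+1)) (x, y)` for `P` of degree `≤ 2a`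
(the constant is zero: evaluate at `(1, 0)`, `inf`). So `∑_b χ(b) pr I ((DX - t b)^a) (t b, D) = χ(t) eI a D I = 0` for `t` prime to `D` (`t = ± p^(M-1)`). -/
def StTrT : Prop := ∀ (p a ν D : ℕ) (I : ℤ → ℤ → ℕ → ℂ), p.Prime → Odd D → Nat.Coprime p D →
  IDataT p a ν (jacobiSym (-1) D * jacobiSym p D ^ (ν + 2)) I → eI a D I = 0 →
  WSymT p a ν D (PhiOfT p a (jacobiSym (-1) D) I)

/-- TR2T. Back. Model: `Pool/Agent/Helper32/WK/M_Tr2.lean`. -/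
def StTr2T : Prop := ∀ (p a ν : ℕ) (w s : ℤ) (I : ℤ → ℤ → ℕ → ℂ), p.Prime → IDataT p a ν w I →
  (∀ i : ℕ, i ≤ 2 * a → EqC (cp (PhiOfT p a s I) i) 0) →
  ∀ i : ℕ, i ≤ 2 * a → ∀ x y : ℤ, (x ≠ 0 ∨ y ≠ 0) → I x y i + (s * (-1) ^ (a + i)) * I (-x) y i = 0

/-! ### Level one (coordinate `z`) -/

/-- LMAPT. As `StLMap`, model `Pool/Agent/Helper54/LV/M_LMap.lean`; see MAPT. -/
def StLMapT : Prop := ∀ (p a n D : ℕ), p ≠ 0 → D ≠ 0 → ∀ (R S : Type) (_ : AddCommGroup R) (_ : AddCommGroup S)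
  (lam : R →+ S) (Φ : ℤ → ℤ → ℕ → R),
  (WSNT p a n D Φ → WSNT p a n D (fun x y i => lam (Φ x y i))) ∧
  (Function.Injective lam → WSNT p a n D (fun x y i => lam (Φ x y i)) → WSNT p a n D Φ) ∧
  ∀ Φ' : ℤ → ℤ → ℕ → R, (∀ i : ℕ, i ≤ 2 * a → EqC (cp Φ' i) (cp Φ i)) → WSNT p a n D Φ →
    WSNT p a n D Φ'

/-- LDENT. As `StLDen`, model `Pool/Agent/Helper62/LV/M_LDen.lean`. -/
def StLDenT : Prop := StFar → StLMapT → ∀ (p a n D : ℕ) (Φ : ℤ → ℤ → ℕ → ℚ), p.Prime → D ≠ 0 →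
  WSNT p a n D Φ → ∃ (N : ℤ) (Ψ : ℤ → ℤ → ℕ → ℤ), N ≠ 0 ∧ WSNT p a n D Ψ ∧
    ∀ i : ℕ, i ≤ 2 * a → EqC (fun x y => ((Ψ x y i : ℤ) : ℚ)) (N • cp Φ i)

/-- LW1T. Copy of `Pool/Agent/Helper4/LV/M_LW1.lean`. -/
def StLW1T : Prop := ∀ (p : ℕ) (_ : Fact p.Prime) (a n D : ℕ) (Φ : ℤ → ℤ → ℕ → ℤ_[p]),
  WSNT p a n D Φ → ∀ M : ℕ, 1 ≤ M → SymP p M (M + n) (redP M (cp Φ a))

/-- LW2T. Copy of `Pool/Agent/Helper61/LV/M_LW2.lean`. -/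
def StLW2T : Prop := ∀ (p : ℕ) (_ : Fact p.Prime) (a n D : ℕ) (Φ : ℤ → ℤ → ℕ → ℤ_[p]),
  WSNT p a n D Φ → (∀ h : ℤ, EqC (Nb a h (cp Φ a)) 0) ∧
    (∀ c : ℤ, (p : ℤ) ^ n ∣ c → EqC (Nc a c (cp Φ a)) 0)

/-- LPOLT. Model: `Pool/Agent/Helper8/LV/M_LPol.lean` (proof in the docstring of `StLPol`). Now `c ψ∘u = ψ + 4 G + k`. (i) `D_h(v, w) = c D_{p h}(u v, u w)`. (ii) `(Nc a c' ψ) ≈ c (Nc a c' θ)`, `θ = ψ∘u`, so `D'_c'(u v, u w) = c D'_{p c'}(v, w)`. -/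
def StLPolT : Prop := ∀ (p : ℕ) (_ : Fact p.Prime) (c : ℤ) (a n : ℕ) (G ψ : ℤ → ℤ → ℤ_[p]),
  (c = 1 ∨ c = -1) → Homog G → Homog ψ → (∀ M : ℕ, 2 ≤ M → SymP p M (M + n - 1) (redP M ψ)) →
  EqC (c • act p 0 0 1 ψ - ψ) ((4 : ℤ) • G) → (∀ h : ℤ, EqC (Nb a h G) 0) →
  (∀ c' : ℤ, (p : ℤ) ^ n ∣ c' → EqC (Nc a c' G) 0) →
  (∀ h : ℤ, EqC (Nb a h ψ) 0) ∧
    (∀ c' : ℤ, (p : ℤ) ^ n ∣ c' → EqC (Nc a c' (act p 0 0 1 ψ)) 0)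

/-- The content of UIWT. -/
def UIWT : Prop := ∀ (p : ℕ) (_ : Fact p.Prime) (c w : ℤ) (n : ℕ) (G ψ : ℤ → ℤ → ℤ_[p]),
  (c = 1 ∨ c = -1) → (w = 1 ∨ w = -1) →
  Homog ψ → (∀ M : ℕ, 2 ≤ M → SymP p M (M + n - 1) (redP M ψ)) →
  EqC (c • act p 0 0 1 ψ - ψ) ((4 : ℤ) • G) → EqC (act 0 (-1) ((p : ℤ) ^ n) 0 G) (-(w • G)) →
  EqC (act 0 (-1) ((p : ℤ) ^ n) 0 ψ) ((c * w) • act p 0 0 1 ψ)

/-- UIWT. The involution. Model: `Pool/Agent/Helper90/LV/M_UIW.lean` (proof in the docstring of `StUIW`). Now `χ = ψ∘W - c w ψ∘u`. `u (W (u (x, y))) = p · W (x, y)`. With `ψ(u z) = c (ψ(z) + 4 G(z) + k)`: `ψ(W v) = c (ψ(W u v) + 4 G(W u v) + k)`, so `ψ(W u v) = c ψ(W v) - 4 G(W u v) - k`, and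
`ψ(u u v) = c (ψ(u v) + 4 G(u v) + k)`; `χ(u v) = ψ(W u v) - c w ψ(u u v) = c ψ(Wv) - w ψ(u v) - 4 (G(W u v) + w G(u v)) + const = c χ(v) + const` as `G∘W ≈ -w G`. So `χ∘u ≈ c χ`, `act (p²) 0 0 1 χ ≈ χ`. Modulo `p^M` `χ` is a symbol of level `(M+n+1, M+n+1)` for `p`, so also for the number
`p²`; UIp for `p²`. -/
def StUIWT : Prop := UIp → UIWT

/-- F0T. Level one. Model: `Pool/Agent/Helper76/LV/M_F0.lean` (proof in the docstring of `StF0`). Now `ψ∘S ≈ η ψ∘u`, `η = ± 1`, and (R) is `F_{uD}(α, pβ, γ/p, δ) = η F_D(-γ, -δ, α, β)`. (2) `F_{uuD}(1,0,0,1) = η F_{uD}(0,-1,1,0) = η² F_D(-p, 0, 0, -1/p) = F_D(1,0,0,1)`. (3) as before: `redP M ψ` is invariant under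
`(p² 0; 0 1)`, so `ψ ≈ 0`, and `4 G ≈ c ψ∘u - ψ ≈ 0`. `Nc a c' ψ ≈ 0` for all `c'` from `c ψ∘u = ψ + 4G + k`. -/
def StF0T : Prop := MS → RgT → RgU → UIp → ∀ (p : ℕ) (_ : Fact p.Prime) (c η : ℤ) (a : ℕ)
  (G ψ : ℤ → ℤ → ℤ_[p]), (c = 1 ∨ c = -1) → (η = 1 ∨ η = -1) →
  Homog ψ → (∀ M : ℕ, 3 ≤ M → SymP p M (M - 1) (redP M ψ)) →
  EqC (c • act p 0 0 1 ψ - ψ) ((4 : ℤ) • G) → (∀ c' : ℤ, EqC (Nc a c' G) 0) →
  (∀ h : ℤ, EqC (Nb a h ψ) 0) → (∀ c' : ℤ, EqC (Nc a c' (act p 0 0 1 ψ)) 0) →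
  EqC (act 0 (-1) 1 0 ψ) (η • act p 0 0 1 ψ) → EqC G 0

/-- F1T. Level `p`, the case `(-1)^a = -η`. Model: `Pool/Agent/Helper29/LV/M_F1.lean` (proof in the docstring of `StF1`). Now `c ψ(u z) = ψ(z) + 4 G(z) + k`. (1) `ψ∘S ≈ η ψ`. (2) `F_D(-γ,-δ,α,β) = η F_D(α,β,γ,δ)`. (3) `4 EGf_D(α,β,γ,δ) = c F_{uD}(α, pβ, γ/p, δ) - F_D(α,β,γ,δ)`. (4) under
`(α,β,γ,δ) ↦ (-γ,-δ,α,β)` the right side is multiplied by `η`, the left side by `(-1)^a = -η`. So `EGf_D = 0`. -/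
def StF1T : Prop := MS → RgT → RgU → EG → ∀ (p : ℕ) (_ : Fact p.Prime) (c η : ℤ) (a : ℕ)
  (Φ : ℤ → ℤ → ℕ → ℤ_[p]) (ψ : ℤ → ℤ → ℤ_[p]), (c = 1 ∨ c = -1) → (η = 1 ∨ η = -1) →
  (-1 : ℤ) ^ a = -η →
  (∀ α β γ δ : ℤ, α * δ - β * γ = 1 → (p : ℤ) ∣ γ →
    EqC (act α β γ δ (cp Φ a)) (pr Φ ((Polynomial.C α * Polynomial.X + Polynomial.C β) ^ a *
      (Polynomial.C γ * Polynomial.X + Polynomial.C δ) ^ a))) →
  Homog ψ → (∀ M : ℕ, 3 ≤ M → SymP p M M (redP M ψ)) →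
  EqC (c • act p 0 0 1 ψ - ψ) ((4 : ℤ) • cp Φ a) →
  (∀ h : ℤ, EqC (Nb a h ψ) 0) → (∀ c' : ℤ, (p : ℤ) ∣ c' → EqC (Nc a c' (act p 0 0 1 ψ)) 0) →
  EqC (act 0 (-1) (p : ℤ) 0 ψ) (η • act p 0 0 1 ψ) → EqC (cp Φ a) 0

/-- LALLT. Copy of `Pool/Agent/Helper11/LV/M_LAll.lean`. -/
def StLAllT : Prop := ∀ (p a n D : ℕ) (Φ : ℤ → ℤ → ℕ → ℂ), p.Prime → WSNT p a n D Φ →
  EqC (cp Φ a) 0 → ∀ i : ℕ, i ≤ 2 * a → EqC (cp Φ i) 0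

/-- As `IDn` (coordinate `z`), with root number `w`. -/
structure IDnT (p a n : ℕ) (w : ℤ) (I : ℤ → ℤ → ℕ → ℂ) : Prop where
  hom : ∀ i : ℕ, i ≤ 2 * a → Homog (cp I i)
  inf : ∀ i : ℕ, i ≤ 2 * a → I 1 0 i = 0
  eqv : ∀ α β γ δ : ℤ, α * δ - β * γ = 1 → (p : ℤ) ^ n ∣ γ → ∀ i : ℕ, i ≤ 2 * a →
    EqC (act α β γ δ (cp I i)) (pr I ((Polynomial.C α * Polynomial.X + Polynomial.C β) ^ i *
      (Polynomial.C γ * Polynomial.X + Polynomial.C δ) ^ (2 * a - i)))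
  fr : EqC (act 0 (-1) ((p : ℤ) ^ n) 0 (cp I a)) (-(w • cp I a))
  hk : ∃ lam : ℕ → ℂ, ∀ (l : ℕ) (m : ℤ), l.Prime → l ≠ p → IsCoprime m (l : ℤ) →
    ∀ i : ℕ, i ≤ 2 * a → ∀ x y : ℤ, (x ≠ 0 ∨ y ≠ 0) →
    (∑ j ∈ Finset.range l, pr I ((Polynomial.C (l : ℤ) * Polynomial.X -
      Polynomial.C (m * j)) ^ i) (x + m * j * y) (l * y)) +
      ((l : ℤ) ^ (2 * a - i)) • I (l * x) y i = lam l * I x y i

/-- The symmetrised potentials, parity `s`. -/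
noncomputable def PhNT (a : ℕ) (s : ℤ) (I : ℤ → ℤ → ℕ → ℂ) : ℤ → ℤ → ℕ → ℂ := fun x y i =>
  I x y i + (s * (-1 : ℤ) ^ (a + i)) • I (-x) y i

/-- LTRT. Transport. Model: `Pool/Agent/Helper12/LV/M_LTr.lean` (docstring of `StLTr`). `pr Φ P (x, y) = pr I P (x, y) + s (-1)^a pr I (P(-X)) (-x, y)`. `hk`: see TRT, now with `t = ± p^M`. -/
def StLTrT : Prop := ∀ (p a n D : ℕ) (I : ℤ → ℤ → ℕ → ℂ), p.Prime → Odd D → Nat.Coprime p D →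
  IDnT p a n (jacobiSym (-1) D * jacobiSym p D ^ n) I → eI a D I = 0 →
  WSNT p a n D (PhNT a (jacobiSym (-1) D) I)

/-! ### Level `p²` (the structure `WSymT p a 0`, coordinate `p z`) -/

/-- M2BT. Copy of `Pool/Agent/Helper66/LV/M_M2B.lean` (only `tt`, `ss` are used). -/
def StM2BT : Prop := ∀ (p : ℕ) (_ : Fact p.Prime) (a D : ℕ) (Φ : ℤ → ℤ → ℕ → ℤ_[p]),
  WSymT p a 0 D Φ → ∀ v1 v2 w1 w2 : ℤ, (v1 ≠ 0 ∨ v2 ≠ 0) → (w1 ≠ 0 ∨ w2 ≠ 0) →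
  ∀ α β γ δ : ℚ_[p],
  (∑ i ∈ Finset.range p, EGf a Φ (v1 + i * v2) v2 (w1 + i * w2) w2
    α (β - i * α) γ (δ - i * γ)) = 0 ∧
  (∑ i ∈ Finset.range p, EGf a Φ v1 (i * v1 + v2) w1 (i * w1 + w2)
    (α - i * β) β (γ - i * δ) δ) = 0

/-- F2T. Level `p²`. Model: `Pool/Agent/Helper15/LV/M_F2.lean` (proof in the docstring of `StF2`), with `θ = c ψ∘u ≈ ψ + 4 G`; everything else is the same. -/
def StF2T : Prop := MC → RgT → RgU → EG → StM2BT → AV → StW2T → ∀ (p : ℕ) (_ : Fact p.Prime)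
  (c : ℤ) (a D : ℕ) (Φ : ℤ → ℤ → ℕ → ℤ_[p]) (ψ : ℤ → ℤ → ℤ_[p]), (c = 1 ∨ c = -1) →
  WSymT p a 0 D Φ → Homog ψ → (∀ M : ℕ, 3 ≤ M → SymP p M (M - 1) (redP M ψ)) →
  EqC (c • act p 0 0 1 ψ - ψ) ((4 : ℤ) • cp Φ a) →
  (∀ h : ℤ, EqC (Nb a h (ψ + (4 : ℤ) • cp Φ a)) 0) → (∀ c' : ℤ, EqC (Nc a c' ψ) 0) →
  EqC (cp Φ a) 0

end Pool.Agent.Helper76.TG
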