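import Pool.Agent.Helper76.TG.Asm
import Pool.Agent.Helper18.TG.M_LaT
import Pool.Agent.Helper21.TG.M_LbT
import Pool.Agent.Helper43.TG.M_PolT
import Pool.Agent.Helper5.TG.M_W4T
import Pool.Agent.Helper21.TG.M_MapT
import Pool.Agent.Helper27.TG.M_DenT
import Pool.Agent.Helper66.TG.M_LMapT
import Pool.Agent.Helper64.TG.M_LDenT
import Pool.Agent.Helper76.TG.M_LPolT
import Pool.Agent.Helper73.TG.M_UIWT
import Pool.Agent.Helper54.TG.M_F0T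
import Pool.Agent.Helper9.TG.M_F1T
import Pool.Agent.Helper3.TG.M_F2T

/-!
# Project T3K: the growth part without hypotheses
-/

set_option autoImplicit false

open Pool.Agent.Helper14.CV (Homog EqC act)
open Pool.Agent.Helper28.WK Pool.Agent.Helper28.LV

namespace Pool.Agent.Helper76.TG

/-- Level `p^(ν+2)`, `ν ≥ 0`. -/
theorem cen2 (p : ℕ) (hp : p.Prime) (D : ℕ) (hD : Nat.Coprime p D) (hTA : TAt p D)
    (a ν : ℕ) (Φ : ℤ → ℤ → ℕ → ℂ) (hW : WSymT p a ν D Φ) :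
    ∀ i : ℕ, i ≤ 2 * a → EqC (cp Φ i) 0 :=
  cen2Of Pool.Agent.Helper18.TG.hLaT Pool.Agent.Helper21.TG.hLbT Pool.Agent.Helper43.TG.hPolT
    Pool.Agent.Helper3.TG.hF2T Pool.Agent.Helper5.TG.hW4T Pool.Agent.Helper21.TG.hMapT
    Pool.Agent.Helper27.TG.hDenT p hp D hD hTA a ν Φ hW

/-- Level one. -/
theorem cen0 (p : ℕ) (hp : p.Prime) (D : ℕ) (hD : Nat.Coprime p D) (hTA : TAt p D)
    (a : ℕ) (Φ : ℤ → ℤ → ℕ → ℂ) (hW : WSNT p a 0 D Φ) :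
    ∀ i : ℕ, i ≤ 2 * a → EqC (cp Φ i) 0 :=
  cen0Of Pool.Agent.Helper18.TG.hLaT Pool.Agent.Helper21.TG.hLbT hLPolT
    Pool.Agent.Helper73.TG.hUIWT Pool.Agent.Helper54.TG.hF0T Pool.Agent.Helper5.TG.hW4T
    Pool.Agent.Helper66.TG.hLMapT Pool.Agent.Helper64.TG.hLDenT p hp D hD hTA a Φ hW

/-- Level `p`, direct case. -/
theorem cen1 (p : ℕ) (hp : p.Prime) (D : ℕ) (hD : Nat.Coprime p D) (hTA : TAt p D)
    (a : ℕ) (ha : (-1 : ℤ) ^ a = -jacobiSym (-1) D)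
    (Φ : ℤ → ℤ → ℕ → ℂ) (hW : WSNT p a 1 D Φ) :
    ∀ i : ℕ, i ≤ 2 * a → EqC (cp Φ i) 0 :=
  cen1Of Pool.Agent.Helper18.TG.hLaT Pool.Agent.Helper21.TG.hLbT hLPolT
    Pool.Agent.Helper73.TG.hUIWT Pool.Agent.Helper9.TG.hF1T Pool.Agent.Helper5.TG.hW4T
    Pool.Agent.Helper66.TG.hLMapT Pool.Agent.Helper64.TG.hLDenT p hp D hD hTA a ha Φ hW

end Pool.Agent.Helper76.TG
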