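import Pool.Agent.Helper76.TG.StG

/-!
# Project WK (MP_3c9520_nt), module All: all components vanish
-/

set_option autoImplicit false

namespace Pool.Agent.Helper76.TG

open Pool.Agent.Helper14.CV Pool.Agent.Helper28.WK

/-- a complex polynomial which vanishes on all multiples of a nonzero integer is zero -/
private theorem vdm (N : ℕ) (d : ℤ) (hd : d ≠ 0) (f : ℕ → ℂ)
    (h : ∀ t : ℤ, ∑ m ∈ Finset.range (N + 1), f m * ((d * t : ℤ) : ℂ) ^ m = 0) :
    ∀ m : ℕ, m ≤ N → f m = 0 := by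
  let Q : Polynomial ℂ := ∑ m ∈ Finset.range (N + 1), Polynomial.C (f m) * Polynomial.X ^ m
  have hQ : Q = 0 := by
    apply Polynomial.eq_zero_of_infinite_isRoot
    have hinf : (Set.range (fun t : ℤ => ((d * t : ℤ) : ℂ))).Infinite := by
      apply Set.infinite_range_of_injective
      intro t t' htt
      have h0 : ((d * t : ℤ) : ℂ) = ((d * t' : ℤ) : ℂ) := htt
      have h1 : d * t = d * t' := Int.cast_injective h0
      exact mul_left_cancel₀ hd h1
    refine hinf.mono ?_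
    rintro z ⟨t, rfl⟩
    change Q.eval _ = 0
    rw [Polynomial.eval_finsetSum]
    simpa using h t
  intro m hm
  have h2 : Q.coeff m = f m := by
    simp only [Q, Polynomial.finsetSum_coeff, Polynomial.coeff_C_mul, Polynomial.coeff_X_pow]
    rw [Finset.sum_eq_single m]
    · simp
    · intro j _ hj
      simp [hj.symm]
    · intro hn
      exact absurd (Finset.mem_range.mpr (Nat.lt_succ_of_le hm)) hn
  rw [← h2, hQ, Polynomial.coeff_zero]

private theorem exp1 (a : ℕ) (b : ℤ) :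
    ((Polynomial.C 1 * Polynomial.X + Polynomial.C b) ^ a *
      (Polynomial.C 0 * Polynomial.X + Polynomial.C 1) ^ (2 * a - a) : Polynomial ℤ) =
    ∑ m ∈ Finset.range (a + 1), Polynomial.C (b ^ m * (a.choose m : ℤ)) *
      Polynomial.X ^ (a - m) := by
  simp only [map_one, one_mul, map_zero, zero_mul, zero_add, one_pow, mul_one]
  rw [add_comm, add_pow]
  refine Finset.sum_congr rfl fun m _ => ?_
  rw [map_mul, map_pow]
  simp only [map_natCast]
  ring

private theorem exp2 (a : ℕ) (c : ℤ) :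
    ((Polynomial.C 1 * Polynomial.X + Polynomial.C 0) ^ a *
      (Polynomial.C c * Polynomial.X + Polynomial.C 1) ^ (2 * a - a) : Polynomial ℤ) =
    ∑ m ∈ Finset.range (a + 1), Polynomial.C (c ^ m * (a.choose m : ℤ)) *
      Polynomial.X ^ (a + m) := by
  have h2 : 2 * a - a = a := by omega
  rw [h2]
  simp only [map_one, one_mul, map_zero, add_zero]
  rw [add_pow, Finset.mul_sum]
  refine Finset.sum_congr rfl fun m _ => ?_
  rw [map_mul, map_pow, one_pow, mul_pow, pow_add]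
  simp only [map_natCast]
  ring

private theorem pr_exp (Φ : ℤ → ℤ → ℕ → ℂ) (s : Finset ℕ) (k : ℕ → ℤ) (e : ℕ → ℕ) (x y : ℤ) :
    pr Φ (∑ m ∈ s, Polynomial.C (k m) * Polynomial.X ^ (e m)) x y =
      ∑ m ∈ s, (k m : ℂ) * Φ x y (e m) := by
  rw [pr_sum]
  rw [Finset.sum_apply, Finset.sum_apply]
  refine Finset.sum_congr rfl fun m _ => ?_
  rw [pr_C_mul, pr_X_pow]
  simp [cp]

private theorem zero_of (Φ : ℤ → ℤ → ℕ → ℂ) (a : ℕ) (d : ℤ) (hd : d ≠ 0) (e : ℕ → ℕ)
    (h : ∀ t : ℤ, EqC (pr Φ (∑ m ∈ Finset.range (a + 1),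
      Polynomial.C ((d * t) ^ m * (a.choose m : ℤ)) * Polynomial.X ^ (e m))) 0) :
    ∀ m : ℕ, m ≤ a → EqC (cp Φ (e m)) 0 := by
  intro m hm
  refine ⟨Φ 1 0 (e m), fun x y hxy => ?_⟩
  have key := vdm a d hd (fun m => (a.choose m : ℂ) * (Φ x y (e m) - Φ 1 0 (e m))) (by
    intro t
    obtain ⟨c, hc⟩ := h t
    have h1 := hc x y hxy
    have h2 := hc 1 0 (Or.inl one_ne_zero)
    rw [pr_exp] at h1 h2
    have h3 : ∑ m ∈ Finset.range (a + 1), (((d * t) ^ m * (a.choose m : ℤ) : ℤ) : ℂ) *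
        Φ x y (e m) = ∑ m ∈ Finset.range (a + 1), (((d * t) ^ m * (a.choose m : ℤ) : ℤ) : ℂ) *
        Φ 1 0 (e m) := h1.trans h2.symm
    rw [← sub_eq_zero, ← Finset.sum_sub_distrib] at h3
    rw [← h3]
    refine Finset.sum_congr rfl fun m _ => ?_
    push_cast
    ring) m hm
  have h4 : (a.choose m : ℂ) ≠ 0 := by
    exact_mod_cast (Nat.choose_pos hm).ne'
  have h5 : Φ x y (e m) - Φ 1 0 (e m) = 0 := (mul_eq_zero.mp key).resolve_left h4
  change Φ x y (e m) = 0 + Φ 1 0 (e m)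
  rw [zero_add]
  exact sub_eq_zero.mp h5

/-- MODULE All. -/
theorem hAllT : StAllT := by
  intro p a ν D Φ hp hW hz i hi
  have hp0 : (p : ℤ) ≠ 0 := by exact_mod_cast hp.ne_zero
  have hact : ∀ α β γ δ : ℤ, α * δ - β * γ = 1 → EqC (act α β γ δ (cp Φ a)) 0 := by
    intro α β γ δ hdet
    have h1 := EqC.act hz (a := α) (b := β) (c := γ) (d := δ) (by rw [hdet]; exact one_ne_zero)
    exact h1
  rcases le_total i a with h | h
  · have h1 := zero_of Φ a p hp0 (fun m => a - m) (fun t => by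
      have h2 := hW.eqv 1 (p * t) 0 1 (by ring) (Dvd.intro _ rfl) (dvd_zero _) a (by omega)
      rw [exp1] at h2
      exact h2.symm.trans (hact 1 (p * t) 0 1 (by ring))) (a - i) (by omega)
    have h3 : a - (a - i) = i := by omega
    simp only [h3] at h1
    exact h1
  · have h1 := zero_of Φ a ((p : ℤ) ^ (ν + 1)) (pow_ne_zero _ hp0) (fun m => a + m) (fun t => by
      have h2 := hW.eqv 1 0 ((p : ℤ) ^ (ν + 1) * t) 1 (by ring) (dvd_zero _) (Dvd.intro _ rfl) a
        (by omega)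
      rw [exp2] at h2
      exact h2.symm.trans (hact 1 0 ((p : ℤ) ^ (ν + 1) * t) 1 (by ring))) (i - a) (by omega)
    have h3 : a + (i - a) = i := by omega
    simp only [h3] at h1
    exact h1

end Pool.Agent.Helper76.TG
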