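import Pool.Agent.Helper76.TG.StG

/-!
# W2: difference relations of the central component
-/

set_option autoImplicit false

open Pool.Agent.Helper14.CV Pool.Agent.Helper28.WK
open Polynomial

namespace Pool.Agent.Helper76.TG

private theorem alt_sum {S : Type} [CommRing S] (a : ℕ) (A B : S) :
    ∑ j ∈ Finset.range (a + 2), ((-1 : ℤ) ^ j * ((a + 1).choose j : ℤ)) • (A + (j : S) * B) ^ a
      = 0 := by
  set P : S[X] := (C A + X * C B) ^ a with hP
  have hdeg : P.natDegree < a + 1 := by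
    have h1 : (C A + X * C B : S[X]).natDegree ≤ 1 := by
      refine (natDegree_add_le _ _).trans (max_le ?_ ?_)
      · rw [natDegree_C]; omega
      · refine natDegree_mul_le.trans ?_
        rw [natDegree_C]
        exact Nat.add_le_add natDegree_X_le le_rfl
    have h2 := natDegree_pow_le (p := (C A + X * C B : S[X])) (n := a)
    have h3 : a * (C A + X * C B : S[X]).natDegree ≤ a * 1 := Nat.mul_le_mul le_rfl h1
    rw [hP]
    omega
  have h := congrFun (Polynomial.fwdDiff_iter_eq_zero_of_degree_lt hdeg) 0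
  rw [fwdDiff_iter_eq_sum_shift] at h
  have h4 : ∑ j ∈ Finset.range (a + 2), ((-1 : ℤ) ^ j * ((a + 1).choose j : ℤ)) •
      (A + (j : S) * B) ^ a = ((-1 : ℤ) ^ (a + 1)) • ∑ k ∈ Finset.range (a + 1 + 1),
        ((-1 : ℤ) ^ (a + 1 - k) * ((a + 1).choose k : ℤ)) • P.eval (0 + k • 1) := by
    rw [Finset.smul_sum]
    refine Finset.sum_congr rfl fun j hj => ?_
    have hj' : j ≤ a + 1 := by
      have := Finset.mem_range.1 hj
      omega
    rw [smul_smul]
    congr 1
    · have e : ((-1 : ℤ) ^ (a + 1)) * ((-1) ^ (a + 1 - j)) = (-1) ^ j := by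
        have e1 : a + 1 = j + (a + 1 - j) := by omega
        conv_lhs => rw [show ((-1 : ℤ) ^ (a + 1)) = (-1) ^ (j + (a + 1 - j)) by rw [← e1]]
        rw [pow_add, mul_assoc, ← mul_pow]
        norm_num
      rw [← mul_assoc, e]
    · rw [hP, mul_comm (j : S) B]
      simp
  rw [h4]
  rw [h]
  simp

private theorem main {R : Type} [AddCommGroup R] (a : ℕ) (Φ : ℤ → ℤ → ℕ → R)
    (E : ℕ → (ℤ → ℤ → R)) (Q : ℕ → ℤ[X])
    (hE : ∀ j, EqC (E j) (pr Φ (Q j)))
    (hQ : ∑ j ∈ Finset.range (a + 2), ((-1 : ℤ) ^ j * ((a + 1).choose j : ℤ)) • Q j = 0) :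
    EqC (∑ j ∈ Finset.range (a + 2), ((-1 : ℤ) ^ j * ((a + 1).choose j : ℤ)) • E j) 0 := by
  have h1 : EqC (∑ j ∈ Finset.range (a + 2), ((-1 : ℤ) ^ j * ((a + 1).choose j : ℤ)) • E j)
      (∑ j ∈ Finset.range (a + 2), ((-1 : ℤ) ^ j * ((a + 1).choose j : ℤ)) • pr Φ (Q j)) :=
    EqC.sum _ fun j _ => EqC.smul _ (hE j)
  have h2 : (∑ j ∈ Finset.range (a + 2), ((-1 : ℤ) ^ j * ((a + 1).choose j : ℤ)) • pr Φ (Q j))
      = 0 := by
    simp_rw [← pr_smul]
    rw [← pr_sum, hQ, pr_zero]
  rw [h2] at h1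
  exact h1

theorem hW2T : StW2T := by
  intro p hp a ν D Φ hW
  constructor
  · intro h hph
    have key := main a Φ (fun j => act 1 (j * h) 0 1 (cp Φ a)) (fun j => (X + C (j * h)) ^ a)
      (fun j => by
        have h1 := hW.eqv 1 (j * h) 0 1 (by ring) (hph.mul_left _) (dvd_zero _) a (by omega)
        simpa using h1) (by
        have h2 := alt_sum (S := ℤ[X]) a X (C h)
        rw [← h2]
        refine Finset.sum_congr rfl fun j _ => ?_
        simp only [C_mul]
        rfl)
    obtain ⟨c, hc⟩ := key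
    refine ⟨c, fun x y hxy => ?_⟩
    have h3 := hc x y hxy
    rw [Pi.zero_apply] at h3 ⊢
    rw [← h3]
    simp only [Nb, Finset.sum_apply, Pi.smul_apply, act]
    refine Finset.sum_congr rfl fun j _ => ?_
    congr 2 <;> ring
  · intro c' hpc
    have key := main a Φ (fun j => act 1 0 (j * c') 1 (cp Φ a))
      (fun j => X ^ a * (C (j * c') * X + 1) ^ a)
      (fun j => by
        have h1 := hW.eqv 1 0 (j * c') 1 (by ring) (dvd_zero _) (hpc.mul_left _) a (by omega)
        have e : 2 * a - a = a := by omega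
        rw [e] at h1
        simpa using h1) (by
        have h2 := alt_sum (S := ℤ[X]) a 1 (C c' * X)
        have h3 := congrArg (fun P => X ^ a * P) h2
        simp only [mul_zero] at h3
        rw [← h3, Finset.mul_sum]
        refine Finset.sum_congr rfl fun j _ => ?_
        rw [mul_smul_comm]
        congr 2
        congr 1
        simp only [C_mul]
        rw [show (C ((j : ℕ) : ℤ) : ℤ[X]) = ((j : ℕ) : ℤ[X]) from rfl]
        ring)
    obtain ⟨c, hc⟩ := key
    refine ⟨c, fun x y hxy => ?_⟩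
    have h3 := hc x y hxy
    rw [Pi.zero_apply] at h3 ⊢
    rw [← h3]
    simp only [Nc, Finset.sum_apply, Pi.smul_apply, act]
    refine Finset.sum_congr rfl fun j _ => ?_
    congr 2 <;> ring

end Pool.Agent.Helper76.TG
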