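import Pool.Agent.Helper28.LV.M_GenL
import Pool.Agent.Helper76.TG.M_W1T
import Pool.Agent.Helper76.TG.M_W2T
import Pool.Agent.Helper76.TG.M_W3T
import Pool.Agent.Helper76.TG.M_AllT
import Pool.Agent.Helper76.TG.M_M2BT
import Pool.Agent.Helper76.TG.M_LW1T
import Pool.Agent.Helper76.TG.M_LW2T
import Pool.Agent.Helper76.TG.M_LAllT

/-!
# Project T3K: assembly of the growth part
-/

set_option autoImplicit false

open Pool.Agent.Helper14.CV (Homog EqC act StFar)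
open Pool.Agent.Helper28.WK Pool.Agent.Helper28.LV

namespace Pool.Agent.Helper76.TG

theorem csgn {p D : ℕ} (h : Nat.Coprime p D) : jacobiSym (p : ℤ) D = 1 ∨ jacobiSym (p : ℤ) D = -1 :=
  jacobiSym.eq_one_or_neg_one (by simpa using h)

theorem ssgn (D : ℕ) : jacobiSym (-1) D = 1 ∨ jacobiSym (-1) D = -1 :=
  jacobiSym.eq_one_or_neg_one (by simp)

theorem cne {p D : ℕ} (hp : p.Prime) (h : Nat.Coprime p D) : D ≠ 0 := by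
  rintro rfl
  exact hp.one_lt.ne' (by simpa using h)

/-- Level `p^n`, `n ≥ 3`, over `ℤ_p`. -/
theorem hZpT (lb : LbT) (pol : StPolT) (gr : Gr) (cc : StCC) (g5 : StG5) (w4 : StW4T)
    (p : ℕ) (hp : Fact p.Prime) (D : ℕ) (hD : Nat.Coprime p D) (hTA : TAt p D) (a ν : ℕ)
    (hν : 1 ≤ ν) (Φ : ℤ → ℤ → ℕ → ℤ_[p]) (hW : WSymT p a ν D Φ) : EqC (cp Φ a) 0 := by
  have hG : ∀ M : ℕ, 2 ≤ M → SymP p M (M + ν) (redP M (cp Φ a)) :=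
    fun M hM => hW1T p hp a ν D Φ hW M (by omega)
  obtain ⟨ψ, hψ1, hψ2, hψ3⟩ := lb p hp D hD hTA ν (cp Φ a) (hW.hom a (by omega)) hG hW.fr hW.st
    (fun M hM => w4 p hp a D Φ hD hW.hk M (by omega))
  obtain ⟨hb, hc⟩ := hW2T p hp a ν D Φ hW
  obtain ⟨hb', hc'⟩ := pol p hp _ a ν (cp Φ a) ψ (csgn hD) (hW.hom a (by omega)) hψ1 hψ2 hψ3 hb hc
  exact g5 gr cc p hp a ν (cp Φ a) ψ hν hG hψ2 hb' hc' (hW3T p hp a ν D Φ hW)

/-- Level `p²`, over `ℤ_p`. -/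
theorem hZ2T (lb : LbT) (pol : StPolT) (mc : MC) (rt : RgT) (ru : RgU) (eg : EG) (av : AV)
    (f2 : StF2T) (w4 : StW4T)
    (p : ℕ) (hp : Fact p.Prime) (D : ℕ) (hD : Nat.Coprime p D) (hTA : TAt p D) (a : ℕ)
    (Φ : ℤ → ℤ → ℕ → ℤ_[p]) (hW : WSymT p a 0 D Φ) : EqC (cp Φ a) 0 := by
  obtain ⟨ψ, hψ1, hψ2, hψ3⟩ := lb p hp D hD hTA 0 (cp Φ a) (hW.hom a (by omega))
    (fun M hM => hW1T p hp a 0 D Φ hW M (by omega)) hW.fr hW.st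
    (fun M hM => w4 p hp a D Φ hD hW.hk M (by omega))
  obtain ⟨hb, hc⟩ := hW2T p hp a 0 D Φ hW
  obtain ⟨hb', hc'⟩ := pol p hp _ a 0 (cp Φ a) ψ (csgn hD) (hW.hom a (by omega)) hψ1 hψ2 hψ3 hb hc
  exact f2 mc rt ru eg hM2BT av hW2T p hp _ a D Φ ψ (csgn hD) hW hψ1
    (fun M hM => by simpa using hψ2 M (by omega)) hψ3 hb' (fun c => hc' c (by simp))

/-- Level one, over `ℤ_p`. -/
theorem hZ0T (lb : LbT) (ui : UIp) (pol : StLPolT) (uiw : UIWT) (ms : MS) (rt : RgT)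
    (ru : RgU) (f0 : StF0T) (w4 : StW4T)
    (p : ℕ) (hp : Fact p.Prime) (D : ℕ) (hD : Nat.Coprime p D) (hTA : TAt p D) (a : ℕ)
    (Φ : ℤ → ℤ → ℕ → ℤ_[p]) (hW : WSNT p a 0 D Φ) : EqC (cp Φ a) 0 := by
  obtain ⟨ψ, hψ1, hψ2, hψ3⟩ := lb p hp D hD hTA 0 (cp Φ a) (hW.hom a (by omega))
    (fun M hM => hLW1T p hp a 0 D Φ hW M (by omega)) hW.fr hW.st
    (fun M hM => w4 p hp a D Φ hD hW.hk M (by omega))
  obtain ⟨hb, hc⟩ := hLW2T p hp a 0 D Φ hW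
  obtain ⟨hb', hc'⟩ := pol p hp _ a 0 (cp Φ a) ψ (csgn hD) (hW.hom a (by omega)) hψ1 hψ2 hψ3 hb hc
  have hs := ssgn D
  have hI := uiw p hp _ (jacobiSym (-1) D * jacobiSym p D ^ 0) 0 (cp Φ a) ψ (csgn hD)
    (by rw [pow_zero, mul_one]; exact hs) hψ1 hψ2 hψ3 hW.fr
  rw [pow_zero, pow_zero, mul_one] at hI
  refine f0 ms rt ru ui p hp _ (jacobiSym p D * jacobiSym (-1) D) a (cp Φ a) ψ (csgn hD) ?_ hψ1
    (fun M hM => by simpa using hψ2 M (by omega)) hψ3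
    (fun c => hc c (by simp)) hb' (fun c => hc' c (by simp)) hI
  rcases csgn hD with h | h <;> rcases hs with h' | h' <;> rw [h, h'] <;> norm_num

/-- Level `p`, direct case, over `ℤ_p`. -/
theorem hZ1T (lb : LbT) (pol : StLPolT) (uiw : UIWT) (ms : MS) (rt : RgT)
    (ru : RgU) (eg : EG) (f1 : StF1T) (w4 : StW4T)
    (p : ℕ) (hp : Fact p.Prime) (D : ℕ) (hD : Nat.Coprime p D) (hTA : TAt p D) (a : ℕ)
    (ha : (-1 : ℤ) ^ a = -jacobiSym (-1) D)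
    (Φ : ℤ → ℤ → ℕ → ℤ_[p]) (hW : WSNT p a 1 D Φ) : EqC (cp Φ a) 0 := by
  obtain ⟨ψ, hψ1, hψ2, hψ3⟩ := lb p hp D hD hTA 1 (cp Φ a) (hW.hom a (by omega))
    (fun M hM => hLW1T p hp a 1 D Φ hW M (by omega)) hW.fr hW.st
    (fun M hM => w4 p hp a D Φ hD hW.hk M (by omega))
  obtain ⟨hb, hc⟩ := hLW2T p hp a 1 D Φ hW
  obtain ⟨hb', hc'⟩ := pol p hp _ a 1 (cp Φ a) ψ (csgn hD) (hW.hom a (by omega)) hψ1 hψ2 hψ3 hb hc
  have hs := ssgn D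
  have hI := uiw p hp _ (jacobiSym (-1) D * jacobiSym p D ^ 1) 1 (cp Φ a) ψ (csgn hD)
    (by rcases csgn hD with h | h <;> rcases hs with h' | h' <;> rw [h, h'] <;> norm_num)
    hψ1 hψ2 hψ3 hW.fr
  have e : jacobiSym (p : ℤ) D * (jacobiSym (-1) D * jacobiSym (p : ℤ) D ^ 1) = jacobiSym (-1) D := by
    rcases csgn hD with h | h <;> rw [h] <;> ring
  rw [pow_one, e] at hI
  refine f1 ms rt ru eg p hp _ (jacobiSym (-1) D) a Φ ψ (csgn hD) hs ha ?_ hψ1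
    (fun M hM => by simpa using hψ2 M (by omega)) hψ3 hb' (fun c h => hc' c (by simpa using h)) hI
  intro α β γ δ hd hg
  have h := hW.eqv α β γ δ hd (by simpa using hg) a (by omega)
  rwa [show 2 * a - a = a by omega] at h

/-- From `ℤ_p` to `ℂ` for the structure `WSymT`. -/
theorem qcT (hFar : StFar) (hM : StMapT) (hDn : StDenT) (p : ℕ) (hp : Fact p.Prime) (a ν D : ℕ)
    (hD : D ≠ 0)
    (hZ : ∀ Φ : ℤ → ℤ → ℕ → ℤ_[p], WSymT p a ν D Φ → EqC (cp Φ a) 0)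
    (Φ : ℤ → ℤ → ℕ → ℂ) (hW : WSymT p a ν D Φ) : EqC (cp Φ a) 0 := by
  have key : ∀ lam : ℂ →ₗ[ℚ] ℚ, ∀ x y : ℤ, (x ≠ 0 ∨ y ≠ 0) →
      lam (Φ x y a - Φ 1 0 a) = 0 := by
    intro lam
    have h1 : WSymT p a ν D (fun x y i => lam (Φ x y i)) :=
      (hM p a ν D hp.out.ne_zero hD ℂ ℚ inferInstance inferInstance lam.toAddMonoidHom Φ).1 hW
    obtain ⟨N, Ψ, hN, hΨ, hE⟩ := hDn hFar hM p a ν D _ hp.out hD h1
    have h2 : WSymT p a ν D (fun x y i => ((Ψ x y i : ℤ) : ℤ_[p])) :=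
      (hM p a ν D hp.out.ne_zero hD ℤ ℤ_[p] inferInstance inferInstance (Int.castAddHom ℤ_[p]) Ψ).1 hΨ
    obtain ⟨c, hc⟩ := hZ _ h2
    obtain ⟨c', hc'⟩ := hE a (by omega)
    intro x y hxy
    have e0 : (Ψ x y a : ℤ_[p]) = 0 + c := hc x y hxy
    have e0' : (Ψ 1 0 a : ℤ_[p]) = 0 + c := hc 1 0 (Or.inl one_ne_zero)
    have e1 : (Ψ x y a : ℤ_[p]) = (Ψ 1 0 a : ℤ_[p]) := e0.trans e0'.symm
    have e2 : Ψ x y a = Ψ 1 0 a := Int.cast_injective e1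
    have e3 : ((Ψ x y a : ℤ) : ℚ) = N • lam (Φ x y a) + c' := hc' x y hxy
    have e4 : ((Ψ 1 0 a : ℤ) : ℚ) = N • lam (Φ 1 0 a) + c' := hc' 1 0 (Or.inl one_ne_zero)
    have e5 : N • lam (Φ x y a) = N • lam (Φ 1 0 a) := by
      rw [e2] at e3
      exact add_right_cancel (e3.symm.trans e4)
    rw [map_sub, sub_eq_zero]
    have hN' : (N : ℚ) ≠ 0 := by exact_mod_cast hN
    rw [zsmul_eq_mul, zsmul_eq_mul] at e5
    exact mul_left_cancel₀ hN' e5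
  refine ⟨Φ 1 0 a, fun x y hxy => ?_⟩
  have h := (Module.forall_dual_apply_eq_zero_iff ℚ (Φ x y a - Φ 1 0 a)).1
    (fun f => key f x y hxy)
  show Φ x y a = 0 + Φ 1 0 a
  rw [zero_add]
  exact sub_eq_zero.1 h

/-- From `ℤ_p` to `ℂ` for the structure `WSNT`. -/
theorem lqcT (hFar : StFar) (hM : StLMapT) (hDn : StLDenT) (p : ℕ) (hp : Fact p.Prime) (a n D : ℕ)
    (hD : D ≠ 0)
    (hZ : ∀ Φ : ℤ → ℤ → ℕ → ℤ_[p], WSNT p a n D Φ → EqC (cp Φ a) 0)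
    (Φ : ℤ → ℤ → ℕ → ℂ) (hW : WSNT p a n D Φ) : EqC (cp Φ a) 0 := by
  have key : ∀ lam : ℂ →ₗ[ℚ] ℚ, ∀ x y : ℤ, (x ≠ 0 ∨ y ≠ 0) →
      lam (Φ x y a - Φ 1 0 a) = 0 := by
    intro lam
    have h1 : WSNT p a n D (fun x y i => lam (Φ x y i)) :=
      (hM p a n D hp.out.ne_zero hD ℂ ℚ inferInstance inferInstance lam.toAddMonoidHom Φ).1 hW
    obtain ⟨N, Ψ, hN, hΨ, hE⟩ := hDn hFar hM p a n D _ hp.out hD h1
    have h2 : WSNT p a n D (fun x y i => ((Ψ x y i : ℤ) : ℤ_[p])) :=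
      (hM p a n D hp.out.ne_zero hD ℤ ℤ_[p] inferInstance inferInstance (Int.castAddHom ℤ_[p]) Ψ).1 hΨ
    obtain ⟨c, hc⟩ := hZ _ h2
    obtain ⟨c', hc'⟩ := hE a (by omega)
    intro x y hxy
    have e0 : (Ψ x y a : ℤ_[p]) = 0 + c := hc x y hxy
    have e0' : (Ψ 1 0 a : ℤ_[p]) = 0 + c := hc 1 0 (Or.inl one_ne_zero)
    have e1 : (Ψ x y a : ℤ_[p]) = (Ψ 1 0 a : ℤ_[p]) := e0.trans e0'.symm
    have e2 : Ψ x y a = Ψ 1 0 a := Int.cast_injective e1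
    have e3 : ((Ψ x y a : ℤ) : ℚ) = N • lam (Φ x y a) + c' := hc' x y hxy
    have e4 : ((Ψ 1 0 a : ℤ) : ℚ) = N • lam (Φ 1 0 a) + c' := hc' 1 0 (Or.inl one_ne_zero)
    have e5 : N • lam (Φ x y a) = N • lam (Φ 1 0 a) := by
      rw [e2] at e3
      exact add_right_cancel (e3.symm.trans e4)
    rw [map_sub, sub_eq_zero]
    have hN' : (N : ℚ) ≠ 0 := by exact_mod_cast hN
    rw [zsmul_eq_mul, zsmul_eq_mul] at e5
    exact mul_left_cancel₀ hN' e5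
  refine ⟨Φ 1 0 a, fun x y hxy => ?_⟩
  have h := (Module.forall_dual_apply_eq_zero_iff ℚ (Φ x y a - Φ 1 0 a)).1
    (fun f => key f x y hxy)
  show Φ x y a = 0 + Φ 1 0 a
  rw [zero_add]
  exact sub_eq_zero.1 h

/-- Level `p^(ν+2)`, `ν ≥ 0`, complex: all components are constant. -/
theorem cen2Of (la : LaT) (lbt : StLbT) (pol : StPolT) (f2 : StF2T) (w4 : StW4T) (hM : StMapT)
    (hDn : StDenT) (p : ℕ) (hp : p.Prime) (D : ℕ) (hD : Nat.Coprime p D) (hTA : TAt p D)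
    (a ν : ℕ) (Φ : ℤ → ℤ → ℕ → ℂ) (hW : WSymT p a ν D Φ) :
    ∀ i : ℕ, i ≤ 2 * a → EqC (cp Φ i) 0 := by
  have lb := lbt la uiT
  have gr := Pool.Agent.Helper2.WK.hGr Pool.Agent.Helper86.WK.hGp Pool.Agent.Helper2.WK.hPl1
  refine hAllT p a ν D Φ hp hW (qcT Pool.Agent.Helper38.CV.hFar hM hDn p ⟨hp⟩ a ν D (cne hp hD)
    (fun Ψ hΨ => ?_) Φ hW)
  rcases Nat.eq_zero_or_pos ν with h | h
  · subst h
    exact hZ2T lb pol mcT Pool.Agent.Helper34.LV.hRgT Pool.Agent.Helper51.LV.hRgU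
      Pool.Agent.Helper47.LV.hEG Pool.Agent.Helper1.LV.hAV f2 w4 p ⟨hp⟩ D hD hTA a Ψ hΨ
  · exact hZpT lb pol gr Pool.Agent.Helper99.WK.hCC Pool.Agent.Helper15.WK.hG5 w4 p ⟨hp⟩ D hD hTA
      a ν h Ψ hΨ

/-- Level one, complex: all components are constant. -/
theorem cen0Of (la : LaT) (lbt : StLbT) (pol : StLPolT) (uiwt : StUIWT) (f0 : StF0T) (w4 : StW4T)
    (hM : StLMapT) (hDn : StLDenT) (p : ℕ) (hp : p.Prime) (D : ℕ) (hD : Nat.Coprime p D)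
    (hTA : TAt p D) (a : ℕ) (Φ : ℤ → ℤ → ℕ → ℂ) (hW : WSNT p a 0 D Φ) :
    ∀ i : ℕ, i ≤ 2 * a → EqC (cp Φ i) 0 := by
  have lb := lbt la uiT
  exact hLAllT p a 0 D Φ hp hW (lqcT Pool.Agent.Helper38.CV.hFar hM hDn p ⟨hp⟩ a 0 D (cne hp hD)
    (fun Ψ hΨ => hZ0T lb uiT pol (uiwt uiT) msT Pool.Agent.Helper34.LV.hRgT
      Pool.Agent.Helper51.LV.hRgU f0 w4 p ⟨hp⟩ D hD hTA a Ψ hΨ) Φ hW)

/-- Level `p`, direct case, complex: all components are constant. -/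
theorem cen1Of (la : LaT) (lbt : StLbT) (pol : StLPolT) (uiwt : StUIWT) (f1 : StF1T) (w4 : StW4T)
    (hM : StLMapT) (hDn : StLDenT) (p : ℕ) (hp : p.Prime) (D : ℕ) (hD : Nat.Coprime p D)
    (hTA : TAt p D) (a : ℕ) (ha : (-1 : ℤ) ^ a = -jacobiSym (-1) D)
    (Φ : ℤ → ℤ → ℕ → ℂ) (hW : WSNT p a 1 D Φ) :
    ∀ i : ℕ, i ≤ 2 * a → EqC (cp Φ i) 0 := by
  have lb := lbt la uiT
  exact hLAllT p a 1 D Φ hp hW (lqcT Pool.Agent.Helper38.CV.hFar hM hDn p ⟨hp⟩ a 1 D (cne hp hD)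
    (fun Ψ hΨ => hZ1T lb pol (uiwt uiT) msT Pool.Agent.Helper34.LV.hRgT
      Pool.Agent.Helper51.LV.hRgU Pool.Agent.Helper47.LV.hEG f1 w4 p ⟨hp⟩ D hD hTA a ha Ψ hΨ) Φ hW)

end Pool.Agent.Helper76.TG
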